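import Mathlib

/-!
# Maker-Breaker domination: sums of positions

A position is given by the set `F` of the free vertices and the set `A` of Dominator's vertices;
`P A` says that Dominator has won.
-/

set_option autoImplicit false

namespace Pool.Agent.Helper23MB

variable {V : Type} [DecidableEq V]

/-- Dominator, to move, can win within his next `k` moves. -/
def DW (P : Finset V → Prop) : ℕ → Finset V → Finset V → Prop
  | 0, _, A => P A
  | k + 1, F, A => P A ∨ ∃ v ∈ F, P (insert v A) ∨ ((F.erase v).Nonempty ∧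
      ∀ w ∈ F.erase v, DW P k ((F.erase v).erase w) (insert v A))

/-- Dominator can win within his next `k` moves, Staller to move. -/
def SW (P : Finset V → Prop) (k : ℕ) (F A : Finset V) : Prop :=
  P A ∨ (F.Nonempty ∧ ∀ w ∈ F, DW P k (F.erase w) A)

theorem DW_zero (P : Finset V → Prop) (F A : Finset V) : DW P 0 F A ↔ P A := Iff.rfl

theorem DW_succ (P : Finset V → Prop) (k : ℕ) (F A : Finset V) :
    DW P (k + 1) F A ↔ P A ∨ ∃ v ∈ F, SW P k (F.erase v) (insert v A) := Iff.rfl

theorem DW_of (P : Finset V → Prop) (k : ℕ) (F A : Finset V) (h : P A) : DW P k F A := by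
  cases k with
  | zero => exact h
  | succ k => exact Or.inl h

theorem SW_of (P : Finset V → Prop) (k : ℕ) (F A : Finset V) (h : P A) : SW P k F A := Or.inl h

/-- fewer vertices of Staller -/
theorem DW_mono (P : Finset V → Prop) (k : ℕ) : ∀ (F F' A : Finset V), F ⊆ F' → DW P k F A →
    DW P k F' A := by
  induction k with
  | zero => intro F F' A _ h; exact h
  | succ k ih =>
    intro F F' A hF h
    rcases (DW_succ P k F A).1 h with h | ⟨v, hv, h⟩
    · exact Or.inl h
    · refine (DW_succ P k F' A).2 (Or.inr ⟨v, hF hv, ?_⟩)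
      rcases h with h | ⟨⟨x, hx⟩, h⟩
      · exact Or.inl h
      · refine Or.inr ⟨⟨x, Finset.erase_subset_erase v hF hx⟩, fun w hw => ?_⟩
        by_cases hw1 : w ∈ F.erase v
        · exact ih _ _ _ (Finset.erase_subset_erase w (Finset.erase_subset_erase v hF)) (h w hw1)
        · refine ih _ _ _ ?_ (h x hx)
          intro y hy
          have hy1 : y ∈ F.erase v := Finset.mem_of_mem_erase hy
          refine Finset.mem_erase.2 ⟨fun e => hw1 (e ▸ hy1), Finset.erase_subset_erase v hF hy1⟩

/-- more moves -/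
theorem DW_le (P : Finset V → Prop) (k : ℕ) : ∀ (k' : ℕ) (F A : Finset V), k ≤ k' → DW P k F A →
    DW P k' F A := by
  induction k with
  | zero => intro k' F A _ h; exact DW_of P k' F A h
  | succ k ih =>
    intro k' F A hk h
    obtain ⟨k', rfl⟩ : ∃ j, k' = j + 1 := ⟨k' - 1, by omega⟩
    rcases (DW_succ P k F A).1 h with h | ⟨v, hv, h⟩
    · exact Or.inl h
    · refine (DW_succ P k' F A).2 (Or.inr ⟨v, hv, ?_⟩)
      rcases h with h | ⟨hx, h⟩
      · exact Or.inl h
      · exact Or.inr ⟨hx, fun w hw => ih _ _ _ (by omega) (h w hw)⟩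

/-- weaker goals -/
theorem DW_imp (P P' : Finset V → Prop) (hP : ∀ A, P A → P' A) (k : ℕ) : ∀ (F A : Finset V),
    DW P k F A → DW P' k F A := by
  induction k with
  | zero => intro F A h; exact hP _ h
  | succ k ih =>
    intro F A h
    rcases (DW_succ P k F A).1 h with h | ⟨v, hv, h⟩
    · exact Or.inl (hP _ h)
    · refine (DW_succ P' k F A).2 (Or.inr ⟨v, hv, ?_⟩)
      rcases h with h | ⟨hx, h⟩
      · exact Or.inl (hP _ h)
      · exact Or.inr ⟨hx, fun w hw => ih _ _ (h w hw)⟩

theorem SW_imp (P P' : Finset V → Prop) (hP : ∀ A, P A → P' A) (k : ℕ) (F A : Finset V)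
    (h : SW P k F A) : SW P' k F A := by
  rcases h with h | ⟨hx, h⟩
  · exact Or.inl (hP _ h)
  · exact Or.inr ⟨hx, fun w hw => DW_imp P P' hP k _ _ (h w hw)⟩

/-- Dominator has at most half of the moves. -/
theorem DW_bdd (P : Finset V → Prop) (k : ℕ) : ∀ (F A : Finset V), DW P k F A →
    DW P ((F.card + 1) / 2) F A := by
  induction k with
  | zero => intro F A h; exact DW_of P _ F A h
  | succ k ih =>
    intro F A h
    rcases (DW_succ P k F A).1 h with h | ⟨v, hv, h⟩
    · exact DW_of P _ F A h
    · have hc : 1 ≤ F.card := Finset.card_pos.2 ⟨v, hv⟩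
      obtain ⟨j, hj⟩ : ∃ j, (F.card + 1) / 2 = j + 1 := ⟨(F.card - 1) / 2, by omega⟩
      rw [hj]
      refine (DW_succ P j F A).2 (Or.inr ⟨v, hv, ?_⟩)
      rcases h with h | ⟨hx, h⟩
      · exact Or.inl h
      · refine Or.inr ⟨hx, fun w hw => ?_⟩
        have h1 := ih _ _ (h w hw)
        have h2 : ((F.erase v).erase w).card = F.card - 1 - 1 := by
          rw [Finset.card_erase_of_mem hw, Finset.card_erase_of_mem hv]
        refine DW_le P _ _ _ _ ?_ h1
        rw [h2]
        omega

/-- `P` depends only on the vertices of `C` -/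
def Loc (P : Finset V → Prop) (C : Finset V) : Prop := ∀ A A' : Finset V,
  (∀ x ∈ C, x ∈ A ↔ x ∈ A') → (P A ↔ P A')

theorem DW_loc (P : Finset V → Prop) (C : Finset V) (hP : Loc P C) (k : ℕ) :
    ∀ (F A A' : Finset V), (∀ x ∈ C, x ∈ A ↔ x ∈ A') → DW P k F A → DW P k F A' := by
  induction k with
  | zero => intro F A A' h h1; exact (hP A A' h).1 h1
  | succ k ih =>
    intro F A A' hA h
    have hins : ∀ v : V, ∀ x ∈ C, x ∈ insert v A ↔ x ∈ insert v A' := by
      intro v x hx
      rw [Finset.mem_insert, Finset.mem_insert, hA x hx]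
    rcases (DW_succ P k F A).1 h with h | ⟨v, hv, h⟩
    · exact Or.inl ((hP A A' hA).1 h)
    · refine (DW_succ P k F A').2 (Or.inr ⟨v, hv, ?_⟩)
      rcases h with h | ⟨hx, h⟩
      · exact Or.inl ((hP _ _ (hins v)).1 h)
      · exact Or.inr ⟨hx, fun w hw => ih _ _ _ (hins v) (h w hw)⟩

theorem SW_loc (P : Finset V → Prop) (C : Finset V) (hP : Loc P C) (k : ℕ)
    (F A A' : Finset V) (hA : ∀ x ∈ C, x ∈ A ↔ x ∈ A') (h : SW P k F A) : SW P k F A' := by
  rcases h with h | ⟨hx, h⟩
  · exact Or.inl ((hP A A' hA).1 h)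
  · exact Or.inr ⟨hx, fun w hw => DW_loc P C hP k _ _ _ hA (h w hw)⟩

theorem ins_loc (C : Finset V) (A : Finset V) (v : V) (hv : v ∉ C) :
    ∀ x ∈ C, x ∈ A ↔ x ∈ insert v A := by
  intro x hx
  rw [Finset.mem_insert]
  constructor
  · exact fun h => Or.inr h
  · rintro (rfl | h)
    · exact absurd hx hv
    · exact h

theorem DW_empty (P : Finset V → Prop) (k : ℕ) (A : Finset V) (h : DW P k ∅ A) : P A := by
  cases k with
  | zero => exact h
  | succ k =>
    rcases (DW_succ P k ∅ A).1 h with h | ⟨v, hv, _⟩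
    · exact h
    · exact absurd hv (Finset.notMem_empty v)

/-- A component which is lost for Dominator, who is to move: he loses the sum. -/
theorem lost (P P₁ : Finset V → Prop) (C : Finset V) (hP : ∀ A, P A → P₁ A) (hL : Loc P₁ C)
    (k : ℕ) : ∀ (F F₁ A : Finset V), F₁ ⊆ F → F₁ ⊆ C → (∀ x ∈ F, x ∈ C → x ∈ F₁) →
    (∀ j, ¬ DW P₁ j F₁ A) → ¬ DW P k F A := by
  induction k with
  | zero => intro F F₁ A _ _ _ h h1; exact h 0 (hP _ h1)
  | succ k ih =>
    intro F F₁ A hF hC hFC h h1
    rcases (DW_succ P k F A).1 h1 with h1 | ⟨v, hv, h1⟩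
    · exact h 0 (hP _ h1)
    · by_cases hv1 : v ∈ F₁
      · have h2 : ∀ j, ¬ SW P₁ j (F₁.erase v) (insert v A) := fun j hj =>
          h (j + 1) ((DW_succ P₁ j F₁ A).2 (Or.inr ⟨v, hv1, hj⟩))
        rcases h1 with h1 | ⟨⟨x, hx⟩, h1⟩
        · exact h2 0 (Or.inl (hP _ h1))
        · by_cases h3 : ∃ w ∈ F₁.erase v, ∀ j, ¬ DW P₁ j ((F₁.erase v).erase w) (insert v A)
          · obtain ⟨w, hw, h3⟩ := h3
            refine ih _ ((F₁.erase v).erase w) _ ?_ ?_ ?_ h3
              (h1 w (Finset.erase_subset_erase v hF hw))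
            · exact Finset.erase_subset_erase w (Finset.erase_subset_erase v hF)
            · exact ((Finset.erase_subset _ _).trans (Finset.erase_subset _ _)).trans hC
            · intro y hy hyC
              rw [Finset.mem_erase, Finset.mem_erase] at hy ⊢
              exact ⟨hy.1, hy.2.1, hFC y hy.2.2 hyC⟩
          · push Not at h3
            by_cases h4 : (F₁.erase v).Nonempty
            · exfalso
              apply h2 (((F₁.erase v).card + 1) / 2)
              refine Or.inr ⟨h4, fun w hw => ?_⟩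
              obtain ⟨j, hj⟩ := h3 w hw
              refine DW_le P₁ _ _ _ _ ?_ (DW_bdd P₁ j _ _ hj)
              have := Finset.card_erase_le (s := F₁.erase v) (a := w)
              omega
            · rw [Finset.not_nonempty_iff_eq_empty] at h4
              refine ih _ ∅ _ (Finset.empty_subset _) (Finset.empty_subset _) ?_ ?_ (h1 x hx)
              · intro y hy hyC
                rw [Finset.mem_erase, Finset.mem_erase] at hy
                have : y ∈ F₁.erase v := Finset.mem_erase.2 ⟨hy.2.1, hFC y hy.2.2 hyC⟩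
                rw [h4] at this
                exact this
              · intro j hj
                exact h2 0 (Or.inl (DW_empty P₁ j _ hj))
      · have hvC : v ∉ C := fun hc => hv1 (hFC v hv hc)
        have h2 : ∀ j, ¬ DW P₁ j F₁ (insert v A) := by
          intro j hj
          refine h j (DW_loc P₁ C hL j _ _ _ ?_ hj)
          intro x hx
          exact (ins_loc C A v hvC x hx).symm
        rcases h1 with h1 | ⟨⟨x, hx⟩, h1⟩
        · exact h2 0 (hP _ h1)
        · by_cases h4 : F₁.Nonempty
          · obtain ⟨w, hw⟩ := h4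
            have hwv : w ≠ v := fun e => hv1 (e ▸ hw)
            refine ih _ (F₁.erase w) _ ?_ ?_ ?_ ?_ (h1 w (Finset.mem_erase.2 ⟨hwv, hF hw⟩))
            · intro y hy
              rw [Finset.mem_erase] at hy
              rw [Finset.mem_erase, Finset.mem_erase]
              exact ⟨hy.1, fun e => hv1 (e ▸ hy.2), hF hy.2⟩
            · exact (Finset.erase_subset _ _).trans hC
            · intro y hy hyC
              rw [Finset.mem_erase, Finset.mem_erase] at hy
              exact Finset.mem_erase.2 ⟨hy.1, hFC y hy.2.2 hyC⟩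
            · intro j hj
              exact h2 j (DW_mono P₁ j _ _ _ (Finset.erase_subset _ _) hj)
          · rw [Finset.not_nonempty_iff_eq_empty] at h4
            subst h4
            refine ih _ ∅ _ (Finset.empty_subset _) (Finset.empty_subset _) ?_ h2 (h1 x hx)
            intro y hy hyC
            rw [Finset.mem_erase, Finset.mem_erase] at hy
            exact hFC y hy.2.2 hyC

end Pool.Agent.Helper23MB
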