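import Pool.Agent.Helper23MB.Sum
import Pool.Agent.Helper87.MB.Stm

set_option autoImplicit false

namespace Pool.Agent.Helper23MB

section general
variable {V : Type} [DecidableEq V]

/-- implications under an invariant -/
theorem DW_inv (P P' : Finset V → Prop) (R : Finset V → Finset V → Prop)
    (hR1 : ∀ F A v, v ∈ F → R F A → R (F.erase v) (insert v A))
    (hR2 : ∀ F A w, R F A → R (F.erase w) A)
    (hP : ∀ F A, R F A → P A → P' A) (k : ℕ) : ∀ (F A : Finset V), R F A →
    DW P k F A → DW P' k F A := by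
  induction k with
  | zero => intro F A hR h; exact hP F A hR h
  | succ k ih =>
    intro F A hR h
    rcases (DW_succ P k F A).1 h with h | ⟨v, hv, h⟩
    · exact Or.inl (hP F A hR h)
    · refine (DW_succ P' k F A).2 (Or.inr ⟨v, hv, ?_⟩)
      rcases h with h | ⟨hx, h⟩
      · exact Or.inl (hP _ _ (hR1 F A v hv hR) h)
      · exact Or.inr ⟨hx, fun w hw => ih _ _ (hR2 _ _ w (hR1 F A v hv hR)) (h w hw)⟩

theorem SW_inv (P P' : Finset V → Prop) (R : Finset V → Finset V → Prop)
    (hR1 : ∀ F A v, v ∈ F → R F A → R (F.erase v) (insert v A))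
    (hR2 : ∀ F A w, R F A → R (F.erase w) A)
    (hP : ∀ F A, R F A → P A → P' A) (k : ℕ) (F A : Finset V) (hR : R F A)
    (h : SW P k F A) : SW P' k F A := by
  rcases h with h | ⟨hx, h⟩
  · exact Or.inl (hP F A hR h)
  · exact Or.inr ⟨hx, fun w hw => DW_inv P P' R hR1 hR2 hP k _ _ (hR2 F A w hR) (h w hw)⟩

/-- the winning predicate: all vertices of `U₀` are dominated -/
def Dm (N : V → Finset V) (U₀ : Finset V) (A : Finset V) : Prop := ∀ u ∈ U₀, ∃ v ∈ A, u ∈ N v

theorem filter_empty (N : V → Finset V) (U₀ A : Finset V) :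
    (U₀.filter fun u => ∀ v ∈ A, u ∉ N v) = ∅ ↔ Dm N U₀ A := by
  rw [Finset.filter_eq_empty_iff]
  constructor
  · intro h u hu
    have := h hu
    push Not at this
    exact this
  · intro h u hu hu'
    obtain ⟨v, hv, hv'⟩ := h u hu
    exact hu' v hv hv'

theorem filter_sdiff (N : V → Finset V) (U₀ A : Finset V) (y : V) :
    (U₀.filter fun u => ∀ v ∈ A, u ∉ N v) \ N y = U₀.filter fun u => ∀ v ∈ insert y A, u ∉ N v := by
  ext u
  simp only [Finset.mem_sdiff, Finset.mem_filter, Finset.mem_insert]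
  constructor
  · rintro ⟨⟨h1, h2⟩, h3⟩
    refine ⟨h1, ?_⟩
    rintro v (rfl | hv)
    · exact h3
    · exact h2 v hv
  · rintro ⟨h1, h2⟩
    exact ⟨⟨h1, fun v hv => h2 v (Or.inr hv)⟩, h2 y (Or.inl rfl)⟩

theorem br (N : V → Finset V) (U₀ : Finset V) (k : ℕ) : ∀ F A : Finset V,
    Pool.Agent.Helper87.MB.DW N k F (U₀.filter fun u => ∀ v ∈ A, u ∉ N v) ↔ DW (Dm N U₀) k F A := by
  induction k with
  | zero => intro F A; exact filter_empty N U₀ A
  | succ k ih =>
    intro F A
    rw [Pool.Agent.Helper87.MB.DW_succ, DW_succ, filter_empty]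
    refine or_congr Iff.rfl (exists_congr fun v => and_congr Iff.rfl ?_)
    rw [Pool.Agent.Helper87.MB.SW_iff, filter_sdiff, filter_empty]
    refine or_congr Iff.rfl (and_congr Iff.rfl (forall_congr' fun w => forall_congr' fun _ => ?_))
    exact ih _ _

theorem brS (N : V → Finset V) (U₀ : Finset V) (k : ℕ) (F A : Finset V) :
    Pool.Agent.Helper87.MB.SW N k F (U₀.filter fun u => ∀ v ∈ A, u ∉ N v) ↔ SW (Dm N U₀) k F A := by
  rw [Pool.Agent.Helper87.MB.SW_iff, filter_empty]
  refine or_congr Iff.rfl (and_congr Iff.rfl (forall_congr' fun w => forall_congr' fun _ => ?_))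
  exact br N U₀ k _ _

theorem br0 (N : V → Finset V) (U₀ : Finset V) (k : ℕ) (F : Finset V) :
    Pool.Agent.Helper87.MB.DW N k F U₀ ↔ DW (Dm N U₀) k F ∅ := by
  rw [← br N U₀ k F ∅]
  simp

theorem brS0 (N : V → Finset V) (U₀ : Finset V) (k : ℕ) (F : Finset V) :
    Pool.Agent.Helper87.MB.SW N k F U₀ ↔ SW (Dm N U₀) k F ∅ := by
  rw [← brS N U₀ k F ∅]
  simp

end general

section transport
variable {V W : Type} [DecidableEq V] [DecidableEq W] [Fintype W]

/-- the part of `A` in a copy -/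
def pre (φ : W ↪ V) (A : Finset V) : Finset W := Finset.univ.filter fun w => φ w ∈ A

theorem mem_pre (φ : W ↪ V) (A : Finset V) (w : W) : w ∈ pre φ A ↔ φ w ∈ A := by
  simp [pre]

theorem pre_insert (φ : W ↪ V) (A : Finset V) (w : W) :
    pre φ (insert (φ w) A) = insert w (pre φ A) := by
  ext x
  rw [mem_pre, Finset.mem_insert, Finset.mem_insert, mem_pre, φ.injective.eq_iff]

theorem map_erase' (φ : W ↪ V) (F : Finset W) (w : W) :
    (F.map φ).erase (φ w) = (F.erase w).map φ := by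
  rw [Finset.map_erase]

theorem DW_map (φ : W ↪ V) (Q : Finset W → Prop) (k : ℕ) : ∀ (F : Finset W) (A : Finset V),
    DW (fun A => Q (pre φ A)) k (F.map φ) A ↔ DW Q k F (pre φ A) := by
  induction k with
  | zero => intro F A; exact Iff.rfl
  | succ k ih =>
    intro F A
    rw [DW_succ, DW_succ]
    refine or_congr Iff.rfl ?_
    constructor
    · rintro ⟨v, hv, h⟩
      obtain ⟨w, hw, rfl⟩ := Finset.mem_map.1 hv
      refine ⟨w, hw, ?_⟩
      rw [map_erase'] at h
      rcases h with h | ⟨hx, h⟩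
      · refine Or.inl ?_
        rw [← pre_insert]
        exact h
      · refine Or.inr ⟨(Finset.map_nonempty).1 hx, fun y hy => ?_⟩
        have h1 := h (φ y) (Finset.mem_map_of_mem φ hy)
        rw [map_erase'] at h1
        rw [← pre_insert]
        exact (ih _ _).1 h1
    · rintro ⟨w, hw, h⟩
      refine ⟨φ w, Finset.mem_map_of_mem φ hw, ?_⟩
      rw [map_erase']
      rcases h with h | ⟨hx, h⟩
      · refine Or.inl ?_
        change Q (pre φ (insert (φ w) A))
        rw [pre_insert]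
        exact h
      · refine Or.inr ⟨(Finset.map_nonempty).2 hx, fun z hz => ?_⟩
        obtain ⟨y, hy, rfl⟩ := Finset.mem_map.1 hz
        rw [map_erase', ih, pre_insert]
        exact h y hy

theorem SW_map (φ : W ↪ V) (Q : Finset W → Prop) (k : ℕ) (F : Finset W) (A : Finset V) :
    SW (fun A => Q (pre φ A)) k (F.map φ) A ↔ SW Q k F (pre φ A) := by
  constructor
  · rintro (h | ⟨hx, h⟩)
    · exact Or.inl h
    · refine Or.inr ⟨(Finset.map_nonempty).1 hx, fun y hy => ?_⟩
      have h1 := h (φ y) (Finset.mem_map_of_mem φ hy)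
      rw [map_erase'] at h1
      exact (DW_map φ Q k _ _).1 h1
  · rintro (h | ⟨hx, h⟩)
    · exact Or.inl h
    · refine Or.inr ⟨(Finset.map_nonempty).2 hx, fun z hz => ?_⟩
      obtain ⟨y, hy, rfl⟩ := Finset.mem_map.1 hz
      rw [map_erase', DW_map]
      exact h y hy

end transport

open Pool.Agent.Helper87.MB (NH NG VG C1 C2 C3 S_COMP)

/-- the copies -/
def ph (i : Fin 3) : Fin 14 ↪ VG := ⟨fun v => some (i, v), fun v w h => by simpa using h⟩

/-- the vertices of a copy -/
def Cp (i : Fin 3) : Finset VG := Finset.univ.map (ph i)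

/-- all vertices of `U` are dominated in the copy `i` -/
def Pc (i : Fin 3) (U : Finset (Fin 14)) (A : Finset VG) : Prop := Dm NH U (pre (ph i) A)

theorem mem_Cp (i : Fin 3) (x : VG) : x ∈ Cp i ↔ ∃ v : Fin 14, x = some (i, v) := by
  simp only [Cp, Finset.mem_map, Finset.mem_univ, true_and, ph, Function.Embedding.coeFn_mk]
  exact ⟨fun ⟨v, h⟩ => ⟨v, h.symm⟩, fun ⟨v, h⟩ => ⟨v, h.symm⟩⟩

theorem loc_Pc (i : Fin 3) (U : Finset (Fin 14)) : Loc (Pc i U) (Cp i) := by
  intro A A' h
  have : pre (ph i) A = pre (ph i) A' := by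
    ext v
    rw [mem_pre, mem_pre]
    exact h _ ((mem_Cp i _).2 ⟨v, rfl⟩)
  unfold Pc
  rw [this]

theorem mono_Pc (i : Fin 3) (U : Finset (Fin 14)) (A : Finset VG) (v : VG) (h : Pc i U A) :
    Pc i U (insert v A) := by
  intro u hu
  obtain ⟨w, hw, hw'⟩ := h u hu
  refine ⟨w, ?_, hw'⟩
  rw [mem_pre] at hw ⊢
  exact Finset.mem_insert_of_mem hw

theorem disj (i j : Fin 3) (h : i ≠ j) : Disjoint (Cp i) (Cp j) := by
  rw [Finset.disjoint_left]
  intro x hx hx'
  obtain ⟨v, rfl⟩ := (mem_Cp i _).1 hx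
  obtain ⟨w, hw⟩ := (mem_Cp j _).1 hx'
  simp only [Option.some.injEq, Prod.mk.injEq] at hw
  exact h hw.1

theorem card_Cp (i : Fin 3) : (Cp i).card = 14 := by
  rw [Cp, Finset.card_map, Finset.card_univ, Fintype.card_fin]

theorem mem_NG_some (i j : Fin 3) (u w : Fin 14) : some (i, u) ∈ NG (some (j, w)) ↔
    i = j ∧ u ∈ NH w := by
  unfold NG
  rw [Finset.mem_union, Finset.mem_image]
  constructor
  · rintro (h | ⟨a, ha, h⟩)
    · split_ifs at h with h1
      · simp at h
      · simp at h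
    · simp only [Option.some.injEq, Prod.mk.injEq] at h
      exact ⟨h.1.symm, h.2 ▸ ha⟩
  · rintro ⟨rfl, h⟩
    exact Or.inr ⟨u, h, rfl⟩

theorem mem_NG_none (i : Fin 3) (u : Fin 14) : some (i, u) ∈ NG none ↔ u = 9 := by
  unfold NG
  simp only [Finset.mem_insert, reduceCtorEq, Finset.mem_image, Finset.mem_univ, true_and,
    Option.some.injEq, Prod.mk.injEq, false_or]
  constructor
  · rintro ⟨a, _, h⟩
    exact h.symm
  · rintro rfl
    exact ⟨i, rfl, rfl⟩

theorem none_mem : (none : VG) ∈ NG none := by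
  unfold NG
  exact Finset.mem_insert_self _ _

theorem dom_Pc (A : Finset VG) (h : Dm NG Finset.univ A) (i : Fin 3) :
    Pc i (Finset.univ.erase 9) A := by
  intro u hu
  obtain ⟨v, hv, h1⟩ := h (some (i, u)) (Finset.mem_univ _)
  cases v with
  | none => exact absurd ((mem_NG_none i u).1 h1) (Finset.ne_of_mem_erase hu)
  | some p =>
    obtain ⟨j, w⟩ := p
    obtain ⟨rfl, h2⟩ := (mem_NG_some i j u w).1 h1
    exact ⟨w, (mem_pre _ _ _).2 hv, h2⟩

theorem dom_Pc' (A : Finset VG) (hA : none ∉ A) (h : Dm NG Finset.univ A) (i : Fin 3) :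
    Pc i Finset.univ A := by
  intro u _
  obtain ⟨v, hv, h1⟩ := h (some (i, u)) (Finset.mem_univ _)
  cases v with
  | none => exact absurd hv hA
  | some p =>
    obtain ⟨j, w⟩ := p
    obtain ⟨rfl, h2⟩ := (mem_NG_some i j u w).1 h1
    exact ⟨w, (mem_pre _ _ _).2 hv, h2⟩

theorem dom_of (A : Finset VG) (hA : none ∈ A) (h : ∀ i, Pc i (Finset.univ.erase 9) A) :
    Dm NG Finset.univ A := by
  intro x _
  cases x with
  | none => exact ⟨none, hA, none_mem⟩
  | some p =>
    obtain ⟨i, u⟩ := p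
    by_cases hu : u = 9
    · exact ⟨none, hA, (mem_NG_none i u).2 hu⟩
    · obtain ⟨w, hw, hw'⟩ := h i u (Finset.mem_erase.2 ⟨hu, Finset.mem_univ _⟩)
      exact ⟨some (i, w), (mem_pre _ _ _).1 hw, (mem_NG_some i i u w).2 ⟨rfl, hw'⟩⟩

theorem pre_of (i : Fin 3) (A : Finset VG) (h : ∀ x ∈ Cp i, x ∉ A) : pre (ph i) A = ∅ := by
  ext v
  rw [mem_pre]
  simp only [Finset.notMem_empty, iff_false]
  exact h _ ((mem_Cp i _).2 ⟨v, rfl⟩)

theorem univ_eq : (Finset.univ : Finset VG).erase none = (Cp 0 ∪ Cp 1) ∪ Cp 2 := by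
  ext x
  rw [Finset.mem_erase, Finset.mem_union, Finset.mem_union, mem_Cp, mem_Cp, mem_Cp]
  constructor
  · rintro ⟨h, _⟩
    cases x with
    | none => exact absurd rfl h
    | some p =>
      obtain ⟨i, v⟩ := p
      fin_cases i
      · exact Or.inl (Or.inl ⟨v, rfl⟩)
      · exact Or.inl (Or.inr ⟨v, rfl⟩)
      · exact Or.inr ⟨v, rfl⟩
  · rintro ((⟨v, rfl⟩ | ⟨v, rfl⟩) | ⟨v, rfl⟩) <;> exact ⟨by simp, Finset.mem_univ _⟩

theorem loc_and (P₁ P₂ : Finset VG → Prop) (C₁ C₂ : Finset VG) (h1 : Loc P₁ C₁) (h2 : Loc P₂ C₂) :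
    Loc (fun A => P₁ A ∧ P₂ A) (C₁ ∪ C₂) := by
  intro A A' h
  exact and_congr (h1 A A' fun x hx => h x (Finset.mem_union_left _ hx))
    (h2 A A' fun x hx => h x (Finset.mem_union_right _ hx))

theorem t_COMP : S_COMP := by
  intro c1 c2 c3
  -- the facts in the copies
  have t1 : ∀ (i : Fin 3) (A : Finset VG), (∀ x ∈ Cp i, x ∉ A) →
      SW (Pc i (Finset.univ.erase 9)) 7 (Cp i) A := by
    intro i A hA
    have h1 := (brS0 NH _ 7 _).1 c1
    have h2 := (SW_map (ph i) (Dm NH (Finset.univ.erase 9)) 7 Finset.univ A).2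
    rw [pre_of i A hA] at h2
    exact h2 h1
  have t2 : ∀ (i : Fin 3) (A : Finset VG), (∀ x ∈ Cp i, x ∉ A) →
      ¬ SW (Pc i (Finset.univ.erase 9)) 6 (Cp i) A := by
    intro i A hA h
    have h2 := (SW_map (ph i) (Dm NH (Finset.univ.erase 9)) 6 Finset.univ A).1 h
    rw [pre_of i A hA] at h2
    exact c2 ((brS0 NH _ 6 _).2 h2)
  have t3 : ∀ (i : Fin 3) (A : Finset VG), (∀ x ∈ Cp i, x ∉ A) →
      ¬ SW (Pc i Finset.univ) 7 (Cp i) A := by
    intro i A hA h
    have h2 := (SW_map (ph i) (Dm NH Finset.univ) 7 Finset.univ A).1 h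
    rw [pre_of i A hA] at h2
    exact c3 ((brS0 NH _ 7 _).2 h2)
  have hnone : ∀ (i : Fin 3), ∀ x ∈ Cp i, x ∉ ({none} : Finset VG) := by
    intro i x hx
    obtain ⟨v, rfl⟩ := (mem_Cp i _).1 hx
    simp
  have d01 : Disjoint (Cp 0) (Cp 1) := disj 0 1 (by decide)
  have d2 : Disjoint (Cp 0 ∪ Cp 1) (Cp 2) := Finset.disjoint_union_left.2
    ⟨disj 0 2 (by decide), disj 1 2 (by decide)⟩
  have cu : (Cp 0 ∪ Cp 1).card = 28 := by
    rw [Finset.card_union_of_disjoint d01, card_Cp, card_Cp]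
  constructor
  · rw [br0]
    refine (DW_succ _ 21 _ _).2 (Or.inr ⟨none, Finset.mem_univ _, ?_⟩)
    rw [univ_eq]
    have e1 : (insert (none : VG) (∅ : Finset VG)) = {none} := rfl
    rw [e1]
    have s1 : SW (fun A => Pc 0 (Finset.univ.erase 9) A ∧ Pc 1 (Finset.univ.erase 9) A) 14
        (Cp 0 ∪ Cp 1) {none} :=
      dsum _ (Pc 0 (Finset.univ.erase 9)) (Pc 1 (Finset.univ.erase 9)) (Cp 0) (Cp 1)
        (fun A h1 h2 => ⟨h1, h2⟩) (fun A v => mono_Pc 0 _ A v) (fun A v => mono_Pc 1 _ A v)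
        (loc_Pc 0 _) (loc_Pc 1 _) d01 14 _ _ _ (Finset.Subset.refl _) (Finset.Subset.refl _)
        (by rw [card_Cp]; decide) (by rw [card_Cp]; decide) (by rw [card_Cp, card_Cp])
        ⟨7, t1 0 _ (hnone 0)⟩ ⟨7, t1 1 _ (hnone 1)⟩
    have s2 : SW (fun A => (Pc 0 (Finset.univ.erase 9) A ∧ Pc 1 (Finset.univ.erase 9) A) ∧
        Pc 2 (Finset.univ.erase 9) A) 21 ((Cp 0 ∪ Cp 1) ∪ Cp 2) {none} :=
      dsum _ (fun A => Pc 0 (Finset.univ.erase 9) A ∧ Pc 1 (Finset.univ.erase 9) A)
        (Pc 2 (Finset.univ.erase 9)) (Cp 0 ∪ Cp 1) (Cp 2)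
        (fun A h1 h2 => ⟨h1, h2⟩)
        (fun A v h => ⟨mono_Pc 0 _ A v h.1, mono_Pc 1 _ A v h.2⟩) (fun A v => mono_Pc 2 _ A v)
        (loc_and _ _ _ _ (loc_Pc 0 _) (loc_Pc 1 _)) (loc_Pc 2 _) d2 21 _ _ _
        (Finset.Subset.refl _) (Finset.Subset.refl _)
        (by rw [cu]; decide) (by rw [card_Cp]; decide) (by rw [cu, card_Cp])
        ⟨14, s1⟩ ⟨7, t1 2 _ (hnone 2)⟩
    refine SW_inv _ _ (fun _ A => none ∈ A) ?_ ?_ ?_ 21 _ _ (Finset.mem_singleton_self _) s2
    · intro F A v _ h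
      exact Finset.mem_insert_of_mem h
    · intro F A w h
      exact h
    · rintro F A hA ⟨⟨h0, h1⟩, h2⟩
      refine dom_of A hA fun i => ?_
      fin_cases i
      · exact h0
      · exact h1
      · exact h2
  · rw [br0]
    intro h
    rcases (DW_succ _ 20 _ _).1 h with h | ⟨v, _, h⟩
    · obtain ⟨w, hw, _⟩ := h none (Finset.mem_univ _)
      exact absurd hw (Finset.notMem_empty w)
    · cases v with
      | none =>
        rw [univ_eq] at h
        have e1 : (insert (none : VG) (∅ : Finset VG)) = {none} := rfl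
        rw [e1] at h
        have s1 : ¬ SW (fun A => Pc 0 (Finset.univ.erase 9) A ∧ Pc 1 (Finset.univ.erase 9) A)
            (7 + 7 - 1) (Cp 0 ∪ Cp 1) {none} :=
          tight _ (Pc 0 (Finset.univ.erase 9)) (Pc 1 (Finset.univ.erase 9)) (Cp 0) (Cp 1)
            (fun A h => h.1) (fun A h => h.2) (loc_Pc 0 _) (loc_Pc 1 _) d01 7 (by norm_num) 7
            _ _ _ (Finset.Subset.refl _) (Finset.Subset.refl _) (by rw [card_Cp])
            (Or.inr (t2 0 _ (hnone 0))) (t2 1 _ (hnone 1))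
        have s2 := tight (Dm NG Finset.univ)
            (fun A => Pc 0 (Finset.univ.erase 9) A ∧ Pc 1 (Finset.univ.erase 9) A)
            (Pc 2 (Finset.univ.erase 9)) (Cp 0 ∪ Cp 1) (Cp 2)
            (fun A h => ⟨dom_Pc A h 0, dom_Pc A h 1⟩) (fun A h => dom_Pc A h 2)
            (loc_and _ _ _ _ (loc_Pc 0 _) (loc_Pc 1 _)) (loc_Pc 2 _) d2 7 (by norm_num) 14
            (Cp 0 ∪ Cp 1) (Cp 2) {none} (Finset.Subset.refl _) (Finset.Subset.refl _)
            (by rw [cu]) (Or.inr s1) (t2 2 _ (hnone 2))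
        exact s2 h
      | some p =>
        obtain ⟨i, x⟩ := p
        -- the copy `j` will not be touched
        have key : ∀ (j : Fin 3) (k : ℕ) (F A : Finset VG), none ∉ F → none ∉ A → Cp j ⊆ F →
            (∀ x ∈ Cp j, x ∉ A) → ¬ SW (Dm NG Finset.univ) k F A := by
          intro j k F A hF hA hC hCA h
          have h1 : SW (Pc j Finset.univ) k F A := by
            refine SW_inv _ _ (fun F A => none ∉ F ∧ none ∉ A) ?_ ?_ ?_ k _ _ ⟨hF, hA⟩ h
            · intro F A v hv hR
              refine ⟨fun h => hR.1 (Finset.mem_of_mem_erase h), fun h => ?_⟩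
              rcases Finset.mem_insert.1 h with h | h
              · exact hR.1 (h ▸ hv)
              · exact hR.2 h
            · intro F A w hR
              exact ⟨fun h => hR.1 (Finset.mem_of_mem_erase h), hR.2⟩
            · intro F A hR h
              exact dom_Pc' A hR.2 h j
          have h3 := t3 j A hCA
          have hn : ¬ Pc j Finset.univ A := fun h => h3 (Or.inl h)
          have hne : (Cp j).Nonempty := Finset.card_pos.1 (by rw [card_Cp]; norm_num)
          obtain ⟨y, hy, h4⟩ : ∃ y ∈ Cp j, ¬ DW (Pc j Finset.univ) 7 ((Cp j).erase y) A := by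
            by_contra h4
            push Not at h4
            exact h3 (Or.inr ⟨hne, h4⟩)
          rcases h1 with h1 | ⟨_, h1⟩
          · exact hn h1
          · refine lost (Pc j Finset.univ) (Pc j Finset.univ) (Cp j) (fun _ h => h)
              (loc_Pc j _) k (F.erase y) ((Cp j).erase y) A (Finset.erase_subset_erase y hC)
              (Finset.erase_subset _ _) ?_ ?_ (h1 y (hC hy))
            · intro z hz hzC
              exact Finset.mem_erase.2 ⟨Finset.ne_of_mem_erase hz, hzC⟩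
            · intro l hl
              have h5 := DW_bdd _ l _ _ hl
              rw [Finset.card_erase_of_mem hy, card_Cp] at h5
              exact h4 h5
        have hne0 : ∀ A : Finset VG, (∃ j, ∀ x ∈ Cp j, x ∉ A) → none ∉ A →
            ¬ Dm NG Finset.univ A := by
          rintro A ⟨j, hj⟩ hA hD
          exact t3 j A hj (Or.inl (dom_Pc' A hA hD j))
        have hother : ∀ i : Fin 3, ∃ j : Fin 3, j ≠ i := by decide
        have hother2 : ∀ i i' : Fin 3, ∃ j : Fin 3, j ≠ i ∧ j ≠ i' := by decide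
        have hA1 : (insert (some (i, x) : VG) (∅ : Finset VG)) = {some (i, x)} := rfl
        rw [hA1] at h
        have hnot : ∀ j : Fin 3, j ≠ i → ∀ y ∈ Cp j, y ∉ ({some (i, x)} : Finset VG) := by
          intro j hj y hy hy'
          obtain ⟨v, rfl⟩ := (mem_Cp j _).1 hy
          rw [Finset.mem_singleton] at hy'
          simp only [Option.some.injEq, Prod.mk.injEq] at hy'
          exact hj hy'.1
        rcases h with h | ⟨_, h⟩
        · obtain ⟨j, hj⟩ := hother i
          exact hne0 _ ⟨j, hnot j hj⟩ (by simp) h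
        · have h := h none (Finset.mem_erase.2 ⟨by simp, Finset.mem_univ _⟩)
          rcases (DW_succ _ 19 _ _).1 h with h | ⟨y, hy, h⟩
          · obtain ⟨j, hj⟩ := hother i
            exact hne0 _ ⟨j, hnot j hj⟩ (by simp) h
          · cases y with
            | none => exact absurd rfl (Finset.ne_of_mem_erase hy)
            | some q =>
              obtain ⟨i', x'⟩ := q
              obtain ⟨j, hj, hj'⟩ := hother2 i i'
              refine key j 19 _ _ ?_ ?_ ?_ ?_ h
              · simp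
              · simp
              · intro z hz
                obtain ⟨v, rfl⟩ := (mem_Cp j _).1 hz
                simp [hj, hj']
              · intro z hz hz'
                obtain ⟨v, rfl⟩ := (mem_Cp j _).1 hz
                simp [hj, hj'] at hz'

end Pool.Agent.Helper23MB
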