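import Pool.Agent.Helper23MB.Comp

set_option autoImplicit false

namespace Pool.Agent.Helper23MB

variable {V : Type} [DecidableEq V]

theorem erase_union_left {F₁ F₂ : Finset V} (h : Disjoint F₁ F₂) {w : V} (hw : w ∈ F₁) :
    (F₁ ∪ F₂).erase w = F₁.erase w ∪ F₂ := by
  rw [Finset.erase_union_distrib, Finset.erase_eq_of_notMem (Finset.disjoint_left.1 h hw)]

theorem erase_union_right {F₁ F₂ : Finset V} (h : Disjoint F₁ F₂) {w : V} (hw : w ∈ F₂) :
    (F₁ ∪ F₂).erase w = F₁ ∪ F₂.erase w := by
  rw [Finset.erase_union_distrib, Finset.erase_eq_of_notMem (Finset.disjoint_right.1 h hw)]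

/-- Sums of tight positions are tight. -/
theorem tight (P P₁ P₂ : Finset V → Prop) (C₁ C₂ : Finset V) (hP₁ : ∀ A, P A → P₁ A)
    (hP₂ : ∀ A, P A → P₂ A) (hL₁ : Loc P₁ C₁) (hL₂ : Loc P₂ C₂) (hC : Disjoint C₁ C₂) (m₂ : ℕ)
    (hm₂ : 1 ≤ m₂) (m₁ : ℕ) : ∀ (F₁ F₂ A : Finset V), F₁ ⊆ C₁ → F₂ ⊆ C₂ → F₁.card = 2 * m₁ →
    (m₁ = 0 ∨ ¬ SW P₁ (m₁ - 1) F₁ A) → ¬ SW P₂ (m₂ - 1) F₂ A →
    ¬ SW P (m₁ + m₂ - 1) (F₁ ∪ F₂) A := by
  induction m₁ with
  | zero =>
    intro F₁ F₂ A _ _ hc _ h2 h
    have : F₁ = ∅ := Finset.card_eq_zero.1 (by omega)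
    subst this
    rw [Finset.empty_union, Nat.zero_add] at h
    exact h2 (SW_imp P P₂ hP₂ _ _ _ h)
  | succ m ih =>
    intro F₁ F₂ A hF₁ hF₂ hc h1 h2 h
    have hd : Disjoint F₁ F₂ := Finset.disjoint_of_subset_left hF₁
      (Finset.disjoint_of_subset_right hF₂ hC)
    have h1 : ¬ SW P₁ m F₁ A := by
      rcases h1 with h1 | h1
      · omega
      · exact h1
    have hne : F₁.Nonempty := Finset.card_pos.1 (by omega)
    have hnP : ¬ P₁ A := fun h3 => h1 (Or.inl h3)
    obtain ⟨w, hw, h3⟩ : ∃ w ∈ F₁, ¬ DW P₁ m (F₁.erase w) A := by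
      by_contra h3
      push Not at h3
      exact h1 (Or.inr ⟨hne, h3⟩)
    rcases h with h | ⟨_, h⟩
    · exact hnP (hP₁ _ h)
    · have h := h w (Finset.mem_union_left _ hw)
      rw [erase_union_left hd hw] at h
      obtain ⟨k, hk⟩ : ∃ k, m + 1 + m₂ - 1 = k + 1 := ⟨m + m₂ - 1, by omega⟩
      rw [hk] at h
      have hd' : Disjoint (F₁.erase w) F₂ := Finset.disjoint_of_subset_left
        (Finset.erase_subset _ _) hd
      rcases (DW_succ P k _ A).1 h with h | ⟨v, hv, h⟩
      · exact hnP (hP₁ _ h)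
      · rw [Finset.mem_union] at hv
        by_cases hv1 : v ∈ F₁.erase w
        · rw [erase_union_left hd' hv1] at h
          have hvC : v ∉ C₂ := fun hc' => (Finset.disjoint_left.1 hC
            (hF₁ (Finset.mem_of_mem_erase hv1))) hc'
          have hcard : ((F₁.erase w).erase v).card = 2 * m := by
            rw [Finset.card_erase_of_mem hv1, Finset.card_erase_of_mem hw]
            omega
          have hkm : k = m + m₂ - 1 := by omega
          rw [hkm] at h
          refine ih ((F₁.erase w).erase v) F₂ (insert v A)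
            (((Finset.erase_subset _ _).trans (Finset.erase_subset _ _)).trans hF₁) hF₂ hcard
            ?_ ?_ h
          · cases m with
            | zero => exact Or.inl rfl
            | succ m =>
              refine Or.inr fun h4 => h3 ((DW_succ P₁ m _ A).2 (Or.inr ⟨v, hv1, ?_⟩))
              exact h4
          · intro h4
            refine h2 (SW_loc P₂ C₂ hL₂ _ _ _ _ ?_ h4)
            intro x hx
            exact (ins_loc C₂ A v hvC x hx).symm
        · have hv2 : v ∈ F₂ := hv.resolve_left hv1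
          rw [erase_union_right hd' hv2] at h
          have hvC : v ∉ C₁ := fun hc' => (Finset.disjoint_left.1 hC hc') (hF₂ hv2)
          have hloc : ∀ x ∈ C₁, x ∈ insert v A ↔ x ∈ A := fun x hx => (ins_loc C₁ A v hvC x hx).symm
          rcases h with h | ⟨_, h⟩
          · exact hnP ((hL₁ _ _ hloc).1 (hP₁ _ h))
          · have hcard : (F₁.erase w).card = 2 * m + 1 := by
              rw [Finset.card_erase_of_mem hw]
              omega
            obtain ⟨w', hw'⟩ : (F₁.erase w).Nonempty := Finset.card_pos.1 (by omega)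
            have h := h w' (Finset.mem_union_left _ hw')
            have hd'' : Disjoint (F₁.erase w) (F₂.erase v) := Finset.disjoint_of_subset_right
              (Finset.erase_subset _ _) hd'
            rw [erase_union_left hd'' hw'] at h
            refine lost P P₁ C₁ hP₁ hL₁ k _ ((F₁.erase w).erase w') (insert v A) ?_ ?_ ?_ ?_ h
            · exact Finset.subset_union_left
            · exact ((Finset.erase_subset _ _).trans (Finset.erase_subset _ _)).trans hF₁
            · intro x hx hxC
              rcases Finset.mem_union.1 hx with hx | hx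
              · exact hx
              · exact absurd (hF₂ (Finset.mem_of_mem_erase hx)) (Finset.disjoint_left.1 hC hxC)
            · intro j hj
              have h5 := DW_bdd P₁ j _ _ hj
              have hcard' : ((F₁.erase w).erase w').card = 2 * m := by
                rw [Finset.card_erase_of_mem hw']
                omega
              rw [hcard', show (2 * m + 1) / 2 = m by omega] at h5
              apply h3
              exact DW_mono P₁ m _ _ _ (Finset.erase_subset _ _) (DW_loc P₁ C₁ hL₁ m _ _ _ hloc h5)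

/-- Sums of even positions which Dominator wins as the second player. -/
theorem dsum (P P₁ P₂ : Finset V → Prop) (C₁ C₂ : Finset V) (hP : ∀ A, P₁ A → P₂ A → P A)
    (hM₁ : ∀ A v, P₁ A → P₁ (insert v A)) (hM₂ : ∀ A v, P₂ A → P₂ (insert v A))
    (hL₁ : Loc P₁ C₁) (hL₂ : Loc P₂ C₂) (hC : Disjoint C₁ C₂) (n : ℕ) :
    ∀ (F₁ F₂ A : Finset V), F₁ ⊆ C₁ → F₂ ⊆ C₂ → Even F₁.card → Even F₂.card →
    F₁.card + F₂.card ≤ 2 * n → (∃ k, SW P₁ k F₁ A) → (∃ k, SW P₂ k F₂ A) →
    SW P n (F₁ ∪ F₂) A := by
  -- a reply in one component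
  have reply : ∀ (Q : Finset V → Prop), (∀ A v, Q A → Q (insert v A)) → ∀ (k : ℕ)
      (F A : Finset V), Even F.card → SW Q k F A → ∀ w ∈ F, ∃ v ∈ F.erase w, ∃ k',
        SW Q k' ((F.erase w).erase v) (insert v A) := by
    intro Q hQ k F A hF h w hw
    have hpos : 0 < F.card := Finset.card_pos.2 ⟨w, hw⟩
    have hne : (F.erase w).Nonempty := by
      apply Finset.card_pos.1
      rw [Finset.card_erase_of_mem hw]
      rcases hF with ⟨r, hr⟩
      omega
    obtain ⟨v, hv⟩ := hne
    rcases h with h | ⟨_, h⟩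
    · exact ⟨v, hv, 0, Or.inl (hQ _ _ h)⟩
    · have h := h w hw
      cases k with
      | zero => exact ⟨v, hv, 0, Or.inl (hQ _ _ h)⟩
      | succ k =>
        rcases (DW_succ Q k _ A).1 h with h | ⟨v', hv', h⟩
        · exact ⟨v, hv, 0, Or.inl (hQ _ _ h)⟩
        · exact ⟨v', hv', k, h⟩
  induction n with
  | zero =>
    intro F₁ F₂ A _ _ _ _ hc h1 h2
    have e1 : F₁ = ∅ := Finset.card_eq_zero.1 (by omega)
    have e2 : F₂ = ∅ := Finset.card_eq_zero.1 (by omega)
    subst e1 e2
    obtain ⟨k, h1⟩ := h1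
    obtain ⟨k', h2⟩ := h2
    refine Or.inl (hP _ ?_ ?_)
    · rcases h1 with h1 | ⟨⟨x, hx⟩, _⟩
      · exact h1
      · exact absurd hx (Finset.notMem_empty x)
    · rcases h2 with h2 | ⟨⟨x, hx⟩, _⟩
      · exact h2
      · exact absurd hx (Finset.notMem_empty x)
  | succ n ih =>
    intro F₁ F₂ A hF₁ hF₂ he1 he2 hc h1 h2
    obtain ⟨k, h1⟩ := h1
    obtain ⟨k', h2⟩ := h2
    have hd : Disjoint F₁ F₂ := Finset.disjoint_of_subset_left hF₁
      (Finset.disjoint_of_subset_right hF₂ hC)
    by_cases hPA : P A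
    · exact Or.inl hPA
    · refine Or.inr ⟨?_, ?_⟩
      · rcases h1 with h1 | ⟨⟨x, hx⟩, _⟩
        · rcases h2 with h2 | ⟨⟨x, hx⟩, _⟩
          · exact absurd (hP _ h1 h2) hPA
          · exact ⟨x, Finset.mem_union_right _ hx⟩
        · exact ⟨x, Finset.mem_union_left _ hx⟩
      · intro w hw
        rcases Finset.mem_union.1 hw with hw | hw
        · obtain ⟨v, hv, j, hj⟩ := reply P₁ hM₁ k F₁ A he1 h1 w hw
          have hvC : v ∉ C₂ := fun hc' => (Finset.disjoint_left.1 hC
            (hF₁ (Finset.mem_of_mem_erase hv))) hc'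
          rw [erase_union_left hd hw]
          have hd' : Disjoint (F₁.erase w) F₂ := Finset.disjoint_of_subset_left
            (Finset.erase_subset _ _) hd
          refine (DW_succ P n _ A).2 (Or.inr ⟨v, Finset.mem_union_left _ hv, ?_⟩)
          rw [erase_union_left hd' hv]
          have hcard : ((F₁.erase w).erase v).card = F₁.card - 1 - 1 := by
            rw [Finset.card_erase_of_mem hv, Finset.card_erase_of_mem hw]
          have hpos : 0 < F₁.card := Finset.card_pos.2 ⟨w, hw⟩
          refine ih _ _ _ (((Finset.erase_subset _ _).trans (Finset.erase_subset _ _)).trans hF₁)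
            hF₂ ?_ he2 ?_ ⟨j, hj⟩ ⟨k', ?_⟩
          · rcases he1 with ⟨r, hr⟩
            exact ⟨r - 1, by omega⟩
          · rcases he1 with ⟨r, hr⟩
            omega
          · exact SW_loc P₂ C₂ hL₂ _ _ _ _ (ins_loc C₂ A v hvC) h2
        · obtain ⟨v, hv, j, hj⟩ := reply P₂ hM₂ k' F₂ A he2 h2 w hw
          have hvC : v ∉ C₁ := fun hc' => (Finset.disjoint_right.1 hC
            (hF₂ (Finset.mem_of_mem_erase hv))) hc'
          rw [erase_union_right hd hw]
          have hd' : Disjoint F₁ (F₂.erase w) := Finset.disjoint_of_subset_right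
            (Finset.erase_subset _ _) hd
          refine (DW_succ P n _ A).2 (Or.inr ⟨v, Finset.mem_union_right _ hv, ?_⟩)
          rw [erase_union_right hd' hv]
          have hcard : ((F₂.erase w).erase v).card = F₂.card - 1 - 1 := by
            rw [Finset.card_erase_of_mem hv, Finset.card_erase_of_mem hw]
          have hpos : 0 < F₂.card := Finset.card_pos.2 ⟨w, hw⟩
          refine ih _ _ _ hF₁
            (((Finset.erase_subset _ _).trans (Finset.erase_subset _ _)).trans hF₂)
            he1 ?_ ?_ ⟨k, ?_⟩ ⟨j, hj⟩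
          · rcases he2 with ⟨r, hr⟩
            exact ⟨r - 1, by omega⟩
          · rcases he2 with ⟨r, hr⟩
            omega
          · exact SW_loc P₁ C₁ hL₁ _ _ _ _ (ins_loc C₁ A v hvC) h1

end Pool.Agent.Helper23MB
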